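import Pool.Agent.T9h55.LT.FamC

/-!
# The Lang-Trotter bound in ALL one-parameter families of elliptic curves, for almost all parameters in an automatic set

Let `F`, `G` be polynomials with integer coefficients, and let `E_t` be the curve `y² = x³ + F(t) x + G(t)`. Its `j`-invariant is not
constant if and only if `F ^ 3` and `G ^ 2` are linearly independent over `ℚ`, that is, if some minor
`[F ^ 3]_k [G ^ 2]_l - [F ^ 3]_l [G ^ 2]_k` of their coefficients is not zero. The parameters are `t = c + κ v`, where `v` runs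
through the members of ANY automatic set which is not extremely sparse: the integers whose digits in base `b` are accepted by a
finite automaton, for example the integers without some digits, without some blocks of digits, with given numbers of digits in the
residue classes (such as the Thue-Morse set), and all sets of Mathlib's regular languages of digits. The only condition is that the
number of the members up to `N` is not bounded by a power of `log N`; so it may be as small as `N ^ ε`.

By the modularity theorem and the theory of new forms (not used here) these curves are those of the forms of the question, and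
`a_p(E)` is the Fourier coefficient. By the class number formula of Deuring (not used here) `model χ j r x` is, up to bounded factors
of the terms, the sum of `H(4 p - r²) / (2 p)` over the primes `p ≤ x` with `χ p = j`, where `H` is the class number of Hurwitz; if
`χ` is constant then this is of order `x ^ (1 / 2) / log x`, the order of magnitude of the question.

Method: the trace `r` is at most `8 D` times as frequent among the members of the family modulo `p` as among all curves, up to
`D / p` (`Pool.Agent.T9h55.LT.fam_le`). The distribution of the members of automatic sets in residue classes, and the passage to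
sums over primes of functions of residues, for almost all members, are from the starting library (`Pool.Agent.R459.Eq`,
`Pool.Agent.N794.CG`).
-/

set_option autoImplicit false

namespace Pool.Agent.Results.MP_631487_nt.AutomaticParameters

open Finset Filter Polynomial Pool.Agent.R459.Eq Pool.Agent.N794.CG
open Pool.Agent.W263.BSD (GoodPrime pointCount)

/-- The integers `v < N` whose digits in base `b` (the least significant digit first) are accepted by the automaton `M`. -/
noncomputable def members {σ : Type} (b : ℕ) (M : DFA ℕ σ) (N : ℕ) : Finset ℕ := by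
  classical
  exact (range N).filter (fun v => Nat.digits b v ∈ M.accepts)

/-- `p` is a prime of good reduction of the curve `E : y² = x³ + a x + n` (a prime which does not divide the discriminant
`-16 (4 a³ + 27 n²)`) and `a_p(E) = p - N_p = r`, where `N_p` is the number of the affine points modulo `p`. -/
def Trace (r : ℤ) (p : ℕ) (a n : ℤ) : Prop := GoodPrime a n p ∧ (p : ℤ) - pointCount a n p = r

open Classical in
/-- The number `π_E(x, r)` of the primes `p ≤ x` with `χ p = j` which are of good reduction for `E : y² = x³ + a x + n` and satisfy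
`a_p(E) = r`. -/
noncomputable def piE (χ : ℕ → ℕ) (j : ℕ) (a n r : ℤ) (x : ℕ) : ℕ :=
  ((range (x + 1)).filter (fun p => Trace r p a n ∧ χ p = j)).card

open Classical in
/-- The sum over the primes `p ≤ x` with `χ p = j` of the proportion of the pairs `(α, ν)` of residues modulo `p` for which `p` is a
prime of good reduction of `y² = x³ + α x + ν` with trace `r`. -/
noncomputable def model (χ : ℕ → ℕ) (j : ℕ) (r : ℤ) (x : ℕ) : ℝ :=
  ∑ p ∈ (range (x + 1)).filter (fun p => p.Prime ∧ χ p = j),
    (((range p ×ˢ range p).filter (fun z : ℕ × ℕ => Trace r p z.1 z.2)).card : ℝ) / (p : ℝ) ^ 2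

/-- The minor of the coefficients of `F ^ 3` and `G ^ 2` with the indices `k`, `l`. -/
noncomputable def minor (F G : ℤ[X]) (k l : ℕ) : ℤ := (F ^ 3).coeff k * (G ^ 2).coeff l - (F ^ 3).coeff l * (G ^ 2).coeff k

/-- `F` and `G` have degrees at most `N`, and some minor is not zero and at most `2 ^ N` in absolute value. -/
def Family (N : ℕ) (F G : ℤ[X]) : Prop :=
  F.natDegree ≤ N ∧ G.natDegree ≤ N ∧ ∃ k l, minor F G k l ≠ 0 ∧ |minor F G k l| ≤ 2 ^ N

/-- `D = max (3 deg F) (2 deg G)` -/
def deg (F G : ℤ[X]) : ℕ := max (3 * F.natDegree) (2 * G.natDegree)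

/-- For all integers `|r| ≤ x ^ (δ / 10)` and all `j ≤ x ^ (δ / 10)` the number of the primes `p ≤ x` with `χ p = j` of good
reduction with `a_p(E) = r` of the member `E : y² = x³ + F(t) x + G(t)` is at most
`8 D M(x) + x ^ δ (max 1 M(2 x)) ^ (1 / 2)`, `M(x) = model χ j r x`, `D = max (3 deg F) (2 deg G)`. -/
def Bound (δ : ℝ) (F G : ℤ[X]) (χ : ℕ → ℕ) (t : ℤ) (x : ℕ) : Prop := ∀ (r : ℤ) (j : ℕ), |(r : ℝ)| ≤ (x : ℝ) ^ (δ / 10) →
  (j : ℝ) ≤ (x : ℝ) ^ (δ / 10) → (piE χ j (F.eval t) (G.eval t) r x : ℝ) ≤
    8 * deg F G * model χ j r x + √(max 1 (model χ j r (2 * x))) * (x : ℝ) ^ δ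

lemma piE_eq (χ : ℕ → ℕ) (j : ℕ) (a n r : ℤ) (x : ℕ) : piE χ j a n r x = cntR (T9h55.LT.Tc χ r j) a n x := by
  classical
  unfold piE cntR
  congr 1
  ext p
  simp only [mem_filter, mem_range, mem_pri]
  constructor
  · rintro ⟨h1, h2, h3⟩
    exact ⟨⟨by omega, h2.1.1⟩, h2, h3⟩
  · rintro ⟨h1, h2, h3⟩
    exact ⟨by omega, h2, h3⟩

lemma model_eq (χ : ℕ → ℕ) (j : ℕ) (r : ℤ) (x : ℕ) : model χ j r x = T9h55.LT.md χ r j x := by
  classical
  unfold model T9h55.LT.md
  have e : (range (x + 1)).filter (fun p => p.Prime ∧ χ p = j) = (pri x).filter (fun p => χ p = j) := by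
    ext p
    simp only [mem_filter, mem_range, mem_pri]
    constructor
    · rintro ⟨h1, h2, h3⟩
      exact ⟨⟨by omega, h2⟩, h3⟩
    · rintro ⟨⟨h1, h2⟩, h3⟩
      exact ⟨by omega, h2, h3⟩
  rw [e, sum_filter]
  refine sum_congr rfl fun p _ => ?_
  rw [T9h55.LT.dens2_tc]
  split_ifs
  · unfold dens2 T9h55.LT.Tr Trace
    congr!
  · rfl

lemma bound_of {δ : ℝ} {F G : ℤ[X]} {χ : ℕ → ℕ} {t : ℤ} {x : ℕ}
    (h : T9h55.LT.UpK (8 * T9h55.LT.dg F G) δ χ x (F.eval t) (G.eval t)) : Bound δ F G χ t x := by
  intro r j hr hj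
  rw [piE_eq, model_eq, model_eq]
  exact h r j hr hj

open Classical in
/-- Let `b ≥ 2` and let `S` be the automatic set of the integers whose digits in base `b` are accepted by a finite automaton `M`, and
suppose that the number of its members below `Y` is not bounded by a power of `log Y`. Let `0 < δ ≤ 1`. There are `W` and `e` such
that for `κ ≠ 0` and all sufficiently large `X` the following holds for all `Y` and all integers `c`.

Let at most `X ^ (δ / 8)` families `E_{i, t} : y² = x³ + F_i(t) x + G_i(t)` with non-constant `j`-invariants be given, where `F_i` and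
`G_i` have degrees at most `N ≤ X ^ (δ / 32)` and a minor of `F_i ^ 3` and `G_i ^ 2` is not zero and at most `2 ^ N`, and ARBITRARY
functions `χ_i` of the primes with values in `ℕ` (partitions of the set of the primes into classes). Then for almost all members
`v < Y` of `S`, up to a proportion of at most `4 (log Y) ^ e X ^ (- δ / 8)`, the following holds with `t = c + κ v` for ALL `i` and ALL
`x ≥ X` with `x ^ W ≤ Y`: for all integers `|r| ≤ x ^ (δ / 10)` and all `j ≤ x ^ (δ / 10)` the number of the primes `p ≤ x` with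
`χ_i p = j` of good reduction of `E_{i, t}` with trace `r` is at most `8 D M(x) + x ^ δ (max 1 M(2 x)) ^ (1 / 2)`, where `M(x)` is the
sum over the primes `p ≤ x` with `χ_i p = j` of the proportion of the pairs of residues modulo `p` for which the curve has the
trace `r`, and `D = max (3 deg F_i) (2 deg G_i)`. -/
theorem result : ∀ (σ : Type) [Fintype σ] (b : ℕ) (M : DFA ℕ σ), 2 ≤ b →
    (∀ k : ℕ, ∃ᶠ Y : ℕ in atTop, Real.log Y ^ k < ((members b M Y).card : ℝ)) →
    ∀ δ : ℝ, 0 < δ → δ ≤ 1 → ∃ W e : ℕ, 1 ≤ W ∧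
    ∀ κ : ℤ, κ ≠ 0 → ∃ X₀ : ℕ, ∀ X : ℕ, X₀ ≤ X → ∀ (Y : ℕ) (c : ℤ) (I N : ℕ) (F G : ℕ → ℤ[X]) (χ : ℕ → ℕ → ℕ),
    (I : ℝ) ≤ (X : ℝ) ^ (δ / 8) → (N : ℝ) ≤ (X : ℝ) ^ (δ / 32) → (∀ i, i < I → Family N (F i) (G i)) →
    (((members b M Y).filter (fun v : ℕ => ¬ ∀ i : ℕ, i < I → ∀ x : ℕ, X ≤ x → x ^ W ≤ Y →
      Bound δ (F i) (G i) (χ i) (c + κ * (v : ℕ)) x)).card : ℝ) ≤
      4 * Real.log Y ^ e * (X : ℝ) ^ (-(δ / 8)) * (members b M Y).card := by
  intro σ _ b M hb hS δ hδ hδ1
  have hmem : ∀ Y, members b M Y = mem b M Y := by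
    intro Y
    unfold members mem
    congr!
  obtain ⟨W, e, hW, H⟩ := fineAt_aut (δ / 2) (by linarith) (by linarith) b hb M (fun k => (hS k).mono fun N hN => by
    rw [← hmem]
    exact hN)
  obtain ⟨X₁, hX₁, K⟩ := T9h55.LT.fam_up δ hδ
  refine ⟨W, e, hW, fun κ hκ => ?_⟩
  obtain ⟨X₀, J⟩ := H κ hκ
  refine ⟨X₀ + X₁, fun X hX Y c I N F G χ hI hN hF => ?_⟩
  rw [hmem]
  have hXp : (0 : ℝ) < X := by exact_mod_cast (by omega : 0 < X)
  have h1 := J X (by omega) Y c
  have h2 := T9h55.LT.mostly_all (fun _ _ => by positivity) (fun i t => ∀ x : ℕ, X ≤ x → x ^ W ≤ Y →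
    T9h55.LT.UpK (8 * T9h55.LT.dg (F i) (G i)) δ (χ i) x ((F i).eval t) ((G i).eval t)) I
    (fun i hi => K X (by omega) _ _ _ _ _ _ (fun _ _ => by positivity) h1 N (F i) (G i) (χ i) (hF i hi) hN)
  have h3 := h2 ((mem b M Y).filter (fun v : ℕ => ¬ ∀ i : ℕ, i < I → ∀ x : ℕ, X ≤ x → x ^ W ≤ Y →
      Bound δ (F i) (G i) (χ i) (c + κ * (v : ℕ)) x)) (filter_subset _ _) (by
    intro u hu hall
    exact (mem_filter.1 hu).2 fun i hi x hx hxW => bound_of (hall i hi x hx hxW))
  rw [sum_const, nsmul_eq_mul, mul_one_div] at h3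
  rcases Nat.eq_zero_or_pos (mem b M Y).card with h0 | h0
  · have h4 : (mem b M Y) = ∅ := card_eq_zero.1 h0
    rw [h4]
    simp
  have hM : (0 : ℝ) < (mem b M Y).card := by exact_mod_cast h0
  rw [div_le_iff₀ hM] at h3
  refine h3.trans ?_
  apply mul_le_mul_of_nonneg_right _ hM.le
  have e1 : δ / 2 / 2 = δ / 4 := by ring
  have e2 : (X : ℝ) ^ (δ / 8) * (X : ℝ) ^ (-(δ / 4)) = (X : ℝ) ^ (-(δ / 8)) := by
    rw [← Real.rpow_add hXp]
    congr 1
    ring
  rw [e1, ← e2]
  have h4 : (0 : ℝ) ≤ (X : ℝ) ^ (-(δ / 4)) := by positivity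
  have h5 : (0 : ℝ) ≤ Real.log Y ^ e := pow_nonneg (Real.log_natCast_nonneg Y) e
  calc (I : ℝ) * (2 * (Real.log Y ^ e * (2 * (X : ℝ) ^ (-(δ / 4))))) = 4 * Real.log Y ^ e * (I * (X : ℝ) ^ (-(δ / 4))) := by ring
    _ ≤ 4 * Real.log Y ^ e * ((X : ℝ) ^ (δ / 8) * (X : ℝ) ^ (-(δ / 4))) := by
        apply mul_le_mul_of_nonneg_left _ (by positivity)
        exact mul_le_mul_of_nonneg_right hI h4

end Pool.Agent.Results.MP_631487_nt.AutomaticParameters
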