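import Pool.Agent.T9h55.LT.FamC
import Pool.Agent.N193.PS.Gp

/-!
# The Lang-Trotter bound in ALL one-parameter families of elliptic curves, for almost all parameters `⌊f u⌋`, `f` of non-integral index

Let `F`, `G` be polynomials with integer coefficients, and let `E_t` be the curve `y² = x³ + F(t) x + G(t)`. Its `j`-invariant is not
constant if and only if `F ^ 3` and `G ^ 2` are linearly independent over `ℚ`, that is, if some minor
`[F ^ 3]_k [G ^ 2]_l - [F ^ 3]_l [G ^ 2]_k` of their coefficients is not zero. The parameters `t = e + κ ⌊f u⌋`, `u = 1, 2, 3, …`, are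
the values of a function of non-integral index `c`, for example `f u = u ^ c`; there are only about `N ^ (1 / c)` of them up to `N`,
and `c` is arbitrarily large. For almost all `u` the upper bound of the question is proved with the constant `8 D`,
`D = max (3 deg F) (2 deg G)`, up to an error of the size of the square root of the main term, for all limits `x` up to a power of
the parameter.

By the modularity theorem and the theory of new forms (not used here) these curves are those of the forms of the question, and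
`a_p(E)` is the Fourier coefficient. By the class number formula of Deuring (not used here) `model χ j r x` is, up to bounded factors
of the terms, the sum of `H(4 p - r²) / (2 p)` over the primes `p ≤ x` with `χ p = j`, where `H` is the class number of Hurwitz; if
`χ` is constant then this is of order `x ^ (1 / 2) / log x`, the order of magnitude of the question.

Method: the trace `r` is at most `8 D` times as frequent among the members of the family modulo `p` as among all curves, up to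
`D / p` (`Pool.Agent.T9h55.LT.fam_le`). The characteristic function of the integer part of `f u` is small at all frequencies whose
digits are not close to the digits of an integer (helper193, `Pool.Agent.N193.PS`); the passage from there to sums over primes of
functions of residues, for almost all members, is from the starting library (`Pool.Agent.R459.Eq`, `Pool.Agent.N794.CG`).
-/

set_option autoImplicit false

namespace Pool.Agent.Results.MP_631487_nt.NonIntegralOrderParameter

open Finset Filter Polynomial Pool.Agent.R459.Eq Pool.Agent.N794.CG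
open Pool.Agent.W263.BSD (GoodPrime pointCount)

/-- `f` is smoothly varying of index `c`: it is infinitely differentiable and positive for large arguments, and
`t ^ m f⁽ᵐ⁾(t) / f(t) → c (c - 1) ... (c - m + 1)` for every `m`. -/
def SmoothlyVarying (c : ℝ) (f : ℝ → ℝ) : Prop :=
  (∃ t₀ : ℝ, ∀ t > t₀, ContDiffAt ℝ ((⊤ : ℕ∞) : WithTop ℕ∞) f t ∧ 0 < f t) ∧
  ∀ m : ℕ, Tendsto (fun t => t ^ m * iteratedDeriv m f t / f t) atTop (nhds (∏ i ∈ range m, (c - i)))

/-- `p` is a prime of good reduction of the curve `E : y² = x³ + a x + n` (a prime which does not divide the discriminant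
`-16 (4 a³ + 27 n²)`) and `a_p(E) = p - N_p = r`, where `N_p` is the number of the affine points modulo `p`. -/
def Trace (r : ℤ) (p : ℕ) (a n : ℤ) : Prop := GoodPrime a n p ∧ (p : ℤ) - pointCount a n p = r

open Classical in
/-- The number `π_E(x, r)` of the primes `p ≤ x` with `χ p = j` which are of good reduction for `E : y² = x³ + a x + n` and satisfy
`a_p(E) = r`. -/
noncomputable def piE (χ : ℕ → ℕ) (j : ℕ) (a n r : ℤ) (x : ℕ) : ℕ :=
  ((range (x + 1)).filter (fun p => Trace r p a n ∧ χ p = j)).card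

open Classical in
/-- The sum over the primes `p ≤ x` with `χ p = j` of the proportion of the pairs `(α, ν)` of residues modulo `p` for which `p` is a
prime of good reduction of `y² = x³ + α x + ν` with trace `r`. -/
noncomputable def model (χ : ℕ → ℕ) (j : ℕ) (r : ℤ) (x : ℕ) : ℝ :=
  ∑ p ∈ (range (x + 1)).filter (fun p => p.Prime ∧ χ p = j),
    (((range p ×ˢ range p).filter (fun z : ℕ × ℕ => Trace r p z.1 z.2)).card : ℝ) / (p : ℝ) ^ 2

/-- The minor of the coefficients of `F ^ 3` and `G ^ 2` with the indices `k`, `l`. -/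
noncomputable def minor (F G : ℤ[X]) (k l : ℕ) : ℤ := (F ^ 3).coeff k * (G ^ 2).coeff l - (F ^ 3).coeff l * (G ^ 2).coeff k

/-- `F` and `G` have degrees at most `N`, and some minor is not zero and at most `2 ^ N` in absolute value. -/
def Family (N : ℕ) (F G : ℤ[X]) : Prop :=
  F.natDegree ≤ N ∧ G.natDegree ≤ N ∧ ∃ k l, minor F G k l ≠ 0 ∧ |minor F G k l| ≤ 2 ^ N

/-- `D = max (3 deg F) (2 deg G)` -/
def deg (F G : ℤ[X]) : ℕ := max (3 * F.natDegree) (2 * G.natDegree)

/-- For all integers `|r| ≤ x ^ (δ / 10)` and all `j ≤ x ^ (δ / 10)` the number of the primes `p ≤ x` with `χ p = j` of good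
reduction with `a_p(E) = r` of the member `E : y² = x³ + F(t) x + G(t)` is at most
`8 D M(x) + x ^ δ (max 1 M(2 x)) ^ (1 / 2)`, `M(x) = model χ j r x`, `D = max (3 deg F) (2 deg G)`. -/
def Bound (δ : ℝ) (F G : ℤ[X]) (χ : ℕ → ℕ) (t : ℤ) (x : ℕ) : Prop := ∀ (r : ℤ) (j : ℕ), |(r : ℝ)| ≤ (x : ℝ) ^ (δ / 10) →
  (j : ℝ) ≤ (x : ℝ) ^ (δ / 10) → (piE χ j (F.eval t) (G.eval t) r x : ℝ) ≤
    8 * deg F G * model χ j r x + √(max 1 (model χ j r (2 * x))) * (x : ℝ) ^ δ

lemma piE_eq (χ : ℕ → ℕ) (j : ℕ) (a n r : ℤ) (x : ℕ) : piE χ j a n r x = cntR (T9h55.LT.Tc χ r j) a n x := by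
  classical
  unfold piE cntR
  congr 1
  ext p
  simp only [mem_filter, mem_range, mem_pri]
  constructor
  · rintro ⟨h1, h2, h3⟩
    exact ⟨⟨by omega, h2.1.1⟩, h2, h3⟩
  · rintro ⟨h1, h2, h3⟩
    exact ⟨by omega, h2, h3⟩

lemma model_eq (χ : ℕ → ℕ) (j : ℕ) (r : ℤ) (x : ℕ) : model χ j r x = T9h55.LT.md χ r j x := by
  classical
  unfold model T9h55.LT.md
  have e : (range (x + 1)).filter (fun p => p.Prime ∧ χ p = j) = (pri x).filter (fun p => χ p = j) := by
    ext p
    simp only [mem_filter, mem_range, mem_pri]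
    constructor
    · rintro ⟨h1, h2, h3⟩
      exact ⟨⟨by omega, h2⟩, h3⟩
    · rintro ⟨⟨h1, h2⟩, h3⟩
      exact ⟨by omega, h2, h3⟩
  rw [e, sum_filter]
  refine sum_congr rfl fun p _ => ?_
  rw [T9h55.LT.dens2_tc]
  split_ifs
  · unfold dens2 T9h55.LT.Tr Trace
    congr!
  · rfl

lemma bound_of {δ : ℝ} {F G : ℤ[X]} {χ : ℕ → ℕ} {t : ℤ} {x : ℕ}
    (h : T9h55.LT.UpK (8 * T9h55.LT.dg F G) δ χ x (F.eval t) (G.eval t)) : Bound δ F G χ t x := by
  intro r j hr hj
  rw [piE_eq, model_eq, model_eq]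
  exact h r j hr hj

open Classical in
/-- Let `f` be smoothly varying of index `c > 0` which is not an integer (for example `f u = u ^ c`, or a finite sum of functions
`a u ^ z (log u) ^ y` with a leading term of this kind), and let `0 < δ ≤ 1`. There is `W` such that for `κ ≠ 0` and all sufficiently
large `X` the following holds for all `M` and all integers `e`.

Let at most `X ^ (δ / 8)` families `E_{i, t} : y² = x³ + F_i(t) x + G_i(t)` with non-constant `j`-invariants be given, where `F_i` and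
`G_i` have degrees at most `N ≤ X ^ (δ / 32)` and a minor of `F_i ^ 3` and `G_i ^ 2` is not zero and at most `2 ^ N`, and ARBITRARY
functions `χ_i` of the primes with values in `ℕ` (partitions of the set of the primes into classes). Then for almost all
`u = 1, …, M`, up to a proportion of at most `4 X ^ (- δ / 8)`, the following holds with `t = e + κ ⌊f u⌋` for ALL `i` and ALL `x ≥ X`
with `x ^ W ≤ f M`: for all integers `|r| ≤ x ^ (δ / 10)` and all `j ≤ x ^ (δ / 10)` the number of the primes `p ≤ x` with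
`χ_i p = j` of good reduction of `E_{i, t}` with trace `r` is at most `8 D M(x) + x ^ δ (max 1 M(2 x)) ^ (1 / 2)`, where `M(x)` is the
sum over the primes `p ≤ x` with `χ_i p = j` of the proportion of the pairs of residues modulo `p` for which the curve has the
trace `r`, and `D = max (3 deg F_i) (2 deg G_i)`. -/
theorem result : ∀ (c : ℝ) (f : ℝ → ℝ), 0 < c → (∀ m : ℕ, c ≠ m) → SmoothlyVarying c f → ∀ δ : ℝ, 0 < δ → δ ≤ 1 → ∃ W : ℕ, 1 ≤ W ∧
    ∀ κ : ℤ, κ ≠ 0 → ∃ X₀ : ℕ, ∀ X : ℕ, X₀ ≤ X → ∀ (M : ℕ) (e : ℤ) (I N : ℕ) (F G : ℕ → ℤ[X]) (χ : ℕ → ℕ → ℕ),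
    (I : ℝ) ≤ (X : ℝ) ^ (δ / 8) → (N : ℝ) ≤ (X : ℝ) ^ (δ / 32) → (∀ i, i < I → Family N (F i) (G i)) →
    (((Icc 1 M).filter (fun u : ℕ => ¬ ∀ i : ℕ, i < I → ∀ x : ℕ, X ≤ x → (x : ℝ) ^ W ≤ f M →
      Bound δ (F i) (G i) (χ i) (e + κ * (⌊f u⌋₊ : ℕ)) x)).card : ℝ) ≤ 4 * (X : ℝ) ^ (-(δ / 8)) * M := by
  intro c f hc hn hsv δ hδ hδ1
  obtain ⟨W, hW, H⟩ := eng_sv (fun X => by positivity) (eng_fine (δ / 2) (by linarith) (by linarith)) c f hc hn hsv
  obtain ⟨X₁, hX₁, K⟩ := T9h55.LT.fam_up δ hδ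
  refine ⟨W, hW, fun κ hκ => ?_⟩
  obtain ⟨X₀, J⟩ := H κ hκ
  refine ⟨X₀ + X₁, fun X hX M e I N F G χ hI hN hF => ?_⟩
  have hXp : (0 : ℝ) < X := by exact_mod_cast (by omega : 0 < X)
  have h1 : FineAt (δ / 2) X (fun x => (x : ℝ) ^ W ≤ f M) (2 * (X : ℝ) ^ (-(δ / 2 / 2))) (Icc 1 M)
      (fun _ => 1 / (M : ℝ)) (fun u => e + κ * (⌊f u⌋₊ : ℕ)) := fun s => J X (by omega) M e s
  have h2 := T9h55.LT.mostly_all (fun _ _ => by positivity) (fun i t => ∀ x : ℕ, X ≤ x → (x : ℝ) ^ W ≤ f M →
    T9h55.LT.UpK (8 * T9h55.LT.dg (F i) (G i)) δ (χ i) x ((F i).eval t) ((G i).eval t)) I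
    (fun i hi => K X (by omega) _ _ _ _ _ _ (fun _ _ => by positivity) h1 N (F i) (G i) (χ i) (hF i hi) hN)
  have h3 := h2 ((Icc 1 M).filter (fun u : ℕ => ¬ ∀ i : ℕ, i < I → ∀ x : ℕ, X ≤ x → (x : ℝ) ^ W ≤ f M →
      Bound δ (F i) (G i) (χ i) (e + κ * (⌊f u⌋₊ : ℕ)) x)) (filter_subset _ _) (by
    intro u hu hall
    exact (mem_filter.1 hu).2 fun i hi x hx hxW => bound_of (hall i hi x hx hxW))
  rw [sum_const, nsmul_eq_mul, mul_one_div] at h3
  rcases Nat.eq_zero_or_pos M with h0 | h0
  · rw [h0]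
    simp
  have hM : (0 : ℝ) < M := by exact_mod_cast h0
  rw [div_le_iff₀ hM] at h3
  refine h3.trans ?_
  apply mul_le_mul_of_nonneg_right _ hM.le
  have e1 : δ / 2 / 2 = δ / 4 := by ring
  have e2 : (X : ℝ) ^ (δ / 8) * (X : ℝ) ^ (-(δ / 4)) = (X : ℝ) ^ (-(δ / 8)) := by
    rw [← Real.rpow_add hXp]
    congr 1
    ring
  rw [e1, ← e2]
  have h4 : (0 : ℝ) ≤ (X : ℝ) ^ (-(δ / 4)) := by positivity
  calc (I : ℝ) * (2 * (2 * (X : ℝ) ^ (-(δ / 4)))) = 4 * (I * (X : ℝ) ^ (-(δ / 4))) := by ring
    _ ≤ 4 * ((X : ℝ) ^ (δ / 8) * (X : ℝ) ^ (-(δ / 4))) := by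
        apply mul_le_mul_of_nonneg_left _ (by norm_num)
        exact mul_le_mul_of_nonneg_right hI h4

end Pool.Agent.Results.MP_631487_nt.NonIntegralOrderParameter
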