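import Pool.Agent.T9h55.LT.FamB

/-!
# The Lang-Trotter bound for almost all members of ALL one-parameter families of elliptic curves with non-constant `j`-invariant

Let `F`, `G` be polynomials with integer coefficients, and let `E_t` be the curve `y² = x³ + F(t) x + G(t)`. Its `j`-invariant is not
constant if and only if `F ^ 3` and `G ^ 2` are linearly independent over `ℚ`, that is, if some minor
`[F ^ 3]_k [G ^ 2]_l - [F ^ 3]_l [G ^ 2]_k` of their coefficients is not zero. For almost all members of such families, and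
along all sequences `t = ⌊β μ_n⌋` with ONE random real number `β`, the upper bound of the question is proved with the constant
`8 D`, `D = max (3 deg F) (2 deg G)`, up to an error of the size of the square root of the main term, for all limits `x` up to a
power of the parameter.

By the modularity theorem and the theory of new forms (not used here) these curves are those of the forms of the question, and
`a_p(E)` is the Fourier coefficient. By the class number formula of Deuring (not used here) `model χ j r x` is, up to bounded factors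
of the terms, the sum of `H(4 p - r²) / (2 p)` over the primes `p ≤ x` with `χ p = j`, where `H` is the class number of Hurwitz; if
`χ` is constant then this is of order `x ^ (1 / 2) / log x`, the order of magnitude of the question.

Method: the members of the family are only few of the curves modulo `p`, and nothing is known about their traces. But the map
`(s, t) ↦ (F(t) s⁴, G(t) s⁶)` does not change the trace, and has at most `4 D` elements in its fibres over the pairs with nonzero
coordinates: `t` is a zero of `b² F³ - a³ G²`, which does not vanish identically modulo `p` if `p` does not divide the minor. So the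
trace `r` is at most `8 D` times as frequent among the members as among all curves, up to `D / p`. The members are controlled
by the second moments of the sums over primes of functions of residues, uniformly in the limit of summation (starting library
`Pool.Agent.R459.Eq`, `Pool.Agent.N794.CG`), and by the lemma of Borel and Cantelli.
-/

set_option autoImplicit false

namespace Pool.Agent.Results.MP_631487_nt.OneParameterFamilies

open Finset Filter Polynomial Pool.Agent.R459.Eq Pool.Agent.N794.CG
open Pool.Agent.W263.BSD (GoodPrime pointCount)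

/-- `p` is a prime of good reduction of the curve `E : y² = x³ + a x + n` (a prime which does not divide the discriminant
`-16 (4 a³ + 27 n²)`) and `a_p(E) = p - N_p = r`, where `N_p` is the number of the affine points modulo `p`. -/
def Trace (r : ℤ) (p : ℕ) (a n : ℤ) : Prop := GoodPrime a n p ∧ (p : ℤ) - pointCount a n p = r

open Classical in
/-- The number `π_E(x, r)` of the primes `p ≤ x` with `χ p = j` which are of good reduction for `E : y² = x³ + a x + n` and satisfy
`a_p(E) = r`. -/
noncomputable def piE (χ : ℕ → ℕ) (j : ℕ) (a n r : ℤ) (x : ℕ) : ℕ :=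
  ((range (x + 1)).filter (fun p => Trace r p a n ∧ χ p = j)).card

open Classical in
/-- The sum over the primes `p ≤ x` with `χ p = j` of the proportion of the pairs `(α, ν)` of residues modulo `p` for which `p` is a
prime of good reduction of `y² = x³ + α x + ν` with trace `r`. -/
noncomputable def model (χ : ℕ → ℕ) (j : ℕ) (r : ℤ) (x : ℕ) : ℝ :=
  ∑ p ∈ (range (x + 1)).filter (fun p => p.Prime ∧ χ p = j),
    (((range p ×ˢ range p).filter (fun z : ℕ × ℕ => Trace r p z.1 z.2)).card : ℝ) / (p : ℝ) ^ 2

/-- The minor of the coefficients of `F ^ 3` and `G ^ 2` with the indices `k`, `l`. -/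
noncomputable def minor (F G : ℤ[X]) (k l : ℕ) : ℤ := (F ^ 3).coeff k * (G ^ 2).coeff l - (F ^ 3).coeff l * (G ^ 2).coeff k

/-- `F` and `G` have degrees at most `N`, and some minor is not zero and at most `2 ^ N` in absolute value. -/
def Family (N : ℕ) (F G : ℤ[X]) : Prop :=
  F.natDegree ≤ N ∧ G.natDegree ≤ N ∧ ∃ k l, minor F G k l ≠ 0 ∧ |minor F G k l| ≤ 2 ^ N

/-- `D = max (3 deg F) (2 deg G)` -/
def deg (F G : ℤ[X]) : ℕ := max (3 * F.natDegree) (2 * G.natDegree)

/-- For all integers `|r| ≤ x ^ (δ / 10)` and all `j ≤ x ^ (δ / 10)` the number of the primes `p ≤ x` with `χ p = j` of good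
reduction with `a_p(E) = r` of the member `E : y² = x³ + F(t) x + G(t)` is at most
`8 D M(x) + x ^ δ (max 1 M(2 x)) ^ (1 / 2)`, `M(x) = model χ j r x`, `D = max (3 deg F) (2 deg G)`. -/
def Bound (δ : ℝ) (F G : ℤ[X]) (χ : ℕ → ℕ) (t : ℤ) (x : ℕ) : Prop := ∀ (r : ℤ) (j : ℕ), |(r : ℝ)| ≤ (x : ℝ) ^ (δ / 10) →
  (j : ℝ) ≤ (x : ℝ) ^ (δ / 10) → (piE χ j (F.eval t) (G.eval t) r x : ℝ) ≤
    8 * deg F G * model χ j r x + √(max 1 (model χ j r (2 * x))) * (x : ℝ) ^ δ

lemma piE_eq (χ : ℕ → ℕ) (j : ℕ) (a n r : ℤ) (x : ℕ) : piE χ j a n r x = cntR (T9h55.LT.Tc χ r j) a n x := by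
  classical
  unfold piE cntR
  congr 1
  ext p
  simp only [mem_filter, mem_range, mem_pri]
  constructor
  · rintro ⟨h1, h2, h3⟩
    exact ⟨⟨by omega, h2.1.1⟩, h2, h3⟩
  · rintro ⟨h1, h2, h3⟩
    exact ⟨by omega, h2, h3⟩

lemma model_eq (χ : ℕ → ℕ) (j : ℕ) (r : ℤ) (x : ℕ) : model χ j r x = T9h55.LT.md χ r j x := by
  classical
  unfold model T9h55.LT.md
  have e : (range (x + 1)).filter (fun p => p.Prime ∧ χ p = j) = (pri x).filter (fun p => χ p = j) := by
    ext p
    simp only [mem_filter, mem_range, mem_pri]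
    constructor
    · rintro ⟨h1, h2, h3⟩
      exact ⟨⟨by omega, h2⟩, h3⟩
    · rintro ⟨⟨h1, h2⟩, h3⟩
      exact ⟨by omega, h2, h3⟩
  rw [e, sum_filter]
  refine sum_congr rfl fun p _ => ?_
  rw [T9h55.LT.dens2_tc]
  split_ifs
  · unfold dens2 T9h55.LT.Tr Trace
    congr!
  · rfl

lemma bound_of {δ : ℝ} {F G : ℤ[X]} {χ : ℕ → ℕ} {t : ℤ} {x : ℕ}
    (h : T9h55.LT.UpK (8 * T9h55.LT.dg F G) δ χ x (F.eval t) (G.eval t)) : Bound δ F G χ t x := by
  intro r j hr hj
  rw [piE_eq, model_eq, model_eq]
  exact h r j hr hj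

open Classical in
/-- Let `0 < δ ≤ 1` and `A ≥ 0`. There are `W`, `C` and `n₀` with the following properties. For `n ≥ 1` let `n ^ A` families
`E_{i, t} : y² = x³ + F_i(t) x + G_i(t)`, `i < n ^ A`, with non-constant `j`-invariants and ARBITRARY functions `χ_i` of the primes
with values in `ℕ` (partitions of the set of the primes into classes; for example the residue classes modulo a number or the
classes of Frobenius elements in a number field) be given, where `F_i` and `G_i` have degrees at most `n ^ A` and a minor of `F_i ^ 3`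
and `G_i ^ 2` is not zero and at most `2 ^ (n ^ A)`.

**(1)** If `n ≥ n₀` then for all `q ≥ 1` and all but `4 q / n ^ 2` of the `t < q` the bound `Bound` for `E_{i, t}` is true for ALL
`i < n ^ A` and ALL `x ≥ n ^ C` with `x ^ W ≤ q`.

**(2)** Let `μ_n` be ANY sequence of real numbers, and let such families be given for every `n`. Then for almost all real numbers
`β > 0` and all large `n` the bound `Bound` for `E_{i, t}` with `t = ⌊β μ_n⌋` is true for ALL `i < n ^ A` and ALL `x ≥ n ^ C` with
`x ^ W ≤ μ_n`.

**(3)** The hypothesis is satisfied, with `9 N` in place of `N`, if the degrees and the logarithms to the base `2` of the absolute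
values of the coefficients of `F` and `G` are at most `N` and `F ^ 3`, `G ^ 2` are linearly independent. -/
theorem result :
    (∀ δ : ℝ, 0 < δ → δ ≤ 1 → ∀ A : ℕ, ∃ W C n₀ : ℕ,
      (∀ n : ℕ, n₀ ≤ n → ∀ (F G : ℕ → ℤ[X]) (χ : ℕ → ℕ → ℕ), (∀ i, Family (n ^ A) (F i) (G i)) → ∀ q : ℕ, 1 ≤ q →
        (((range q).filter (fun t : ℕ => ¬ ∀ i : ℕ, i < n ^ A → ∀ x : ℕ, n ^ C ≤ x → x ^ W ≤ q →
          Bound δ (F i) (G i) (χ i) t x)).card : ℝ) ≤ 4 / (n : ℝ) ^ 2 * q) ∧
      (∀ (μ : ℕ → ℝ) (F G : ℕ → ℕ → ℤ[X]) (χ : ℕ → ℕ → ℕ → ℕ), (∀ n i, 1 ≤ n → Family (n ^ A) (F n i) (G n i)) →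
        ∀ᵐ β : ℝ, 0 < β → ∀ᶠ n : ℕ in atTop, ∀ i : ℕ, i < n ^ A → ∀ x : ℕ, n ^ C ≤ x → (x : ℝ) ^ W ≤ μ n →
          Bound δ (F n i) (G n i) (χ n i) (⌊β * μ n⌋₊ : ℕ) x)) ∧
    (∀ (N : ℕ) (F G : ℤ[X]), 1 ≤ N → F.natDegree ≤ N → G.natDegree ≤ N → (∀ k, |F.coeff k| ≤ 2 ^ N) →
      (∀ k, |G.coeff k| ≤ 2 ^ N) → (∀ u v : ℤ, C u * F ^ 3 + C v * G ^ 2 = 0 → u = 0 ∧ v = 0) → Family (9 * N) F G) := by
  constructor
  · intro δ hδ hδ1 A
    obtain ⟨W, D, hW, hD, n₀, H⟩ := T9h55.LT.bad_fam δ hδ hδ1 A
    obtain ⟨W', D', hW', hD', H'⟩ := T9h55.LT.fam_main δ hδ hδ1 A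
    refine ⟨max W W', max D D', n₀ + 1, ?_, ?_⟩
    · intro n hn F G χ hF q hq
      refine le_trans ?_ (H n (by omega) F G χ hF q q le_rfl hq)
      refine Nat.cast_le.2 (card_le_card fun t ht => ?_)
      have ht' := mem_filter.1 ht
      refine mem_filter.2 ⟨ht'.1, fun hP => ht'.2 fun i hi x hx hxW => bound_of ?_⟩
      refine hP i hi x (le_trans (Nat.pow_le_pow_right (by omega) (le_max_left _ _)) hx) ?_
      have hx1 : 1 ≤ x := (Nat.one_le_pow _ _ (by omega)).trans hx
      have h1 : x ^ W ≤ q := (Nat.pow_le_pow_right hx1 (le_max_left _ _)).trans hxW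
      exact_mod_cast h1
    · intro μ F G χ hF
      filter_upwards [H' μ F G χ hF] with β hβ hβ0
      filter_upwards [hβ hβ0, eventually_ge_atTop 1] with n hn hn1 i hi x hx hxW
      apply bound_of
      refine hn i hi x (le_trans (Nat.pow_le_pow_right hn1 (le_max_right _ _)) hx) ?_
      have hx1 : 1 ≤ x := (Nat.one_le_pow _ _ hn1).trans hx
      refine le_trans ?_ hxW
      exact pow_le_pow_right₀ (by exact_mod_cast hx1) (le_max_right _ _)
  · intro N F G hN hF hG hFc hGc h
    exact T9h55.LT.fine_of hN hF hG hFc hGc h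

end Pool.Agent.Results.MP_631487_nt.OneParameterFamilies
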