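import Pool.Agent.T9h55.LT.Two

/-!
# The primes with a prescribed Fourier coefficient `a_p = r` in arbitrary classes of primes, for curves whose coefficients are the
# members of two metric sequences

`lam_n` and `μ_n` are arbitrary given sequences of real numbers, and the only random objects are TWO real numbers `α` and `β`: for
almost all `(α, β)` all the curves `y² = x³ + (⌊α lam_n⌋ + c) x + ⌊β μ_n⌋ + d` with large `n` satisfy the asymptotic formula
predicted by Lang and Trotter on average over all curves, with an error of the size of the square root of the main term, for the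
primes in arbitrary classes (residue classes, classes of Frobenius elements in number fields, ...) instead of all primes.

By the modularity theorem and the theory of new forms (not used here) these curves are those of the forms of the question, and
`a_p(E)` is the Fourier coefficient. By the class number formula of Deuring (not used here) `model χ j r x` is, up to bounded factors
of the terms, the sum of `H(4 p - r²) / (2 p)` over the primes `p ≤ x` with `χ p = j`, where `H` is the class number of Hurwitz; if
`χ` is constant then this is of order `x ^ (1 / 2) / log x`, the order of magnitude of the question.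

Method: second moments of the sums over primes of functions of residues, uniformly in the limit of summation (starting library
`Pool.Agent.R459.Eq`, `Pool.Agent.N794.CG`), for all integers in an interval; the lemma of Borel and Cantelli.
-/

set_option autoImplicit false

namespace Pool.Agent.Results.MP_631487_nt.TwoRandomCoefficients

open Finset Filter Pool.Agent.R459.Eq Pool.Agent.N794.CG
open Pool.Agent.W263.BSD (GoodPrime pointCount)

/-- `p` is a prime of good reduction of the curve `E : y² = x³ + a x + n` (a prime which does not divide the discriminant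
`-16 (4 a³ + 27 n²)`) and `a_p(E) = p - N_p = r`, where `N_p` is the number of the affine points modulo `p`. -/
def Trace (r : ℤ) (p : ℕ) (a n : ℤ) : Prop := GoodPrime a n p ∧ (p : ℤ) - pointCount a n p = r

open Classical in
/-- The number `π_E(x, r)` of the primes `p ≤ x` with `χ p = j` which are of good reduction for `E : y² = x³ + a x + n` and satisfy
`a_p(E) = r`. -/
noncomputable def piE (χ : ℕ → ℕ) (j : ℕ) (a n r : ℤ) (x : ℕ) : ℕ :=
  ((range (x + 1)).filter (fun p => Trace r p a n ∧ χ p = j)).card

open Classical in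
/-- The sum over the primes `p ≤ x` with `χ p = j` of the proportion of the pairs `(α, ν)` of residues modulo `p` for which `p` is a
prime of good reduction of `y² = x³ + α x + ν` with trace `r`. -/
noncomputable def model (χ : ℕ → ℕ) (j : ℕ) (r : ℤ) (x : ℕ) : ℝ :=
  ∑ p ∈ (range (x + 1)).filter (fun p => p.Prime ∧ χ p = j),
    (((range p ×ˢ range p).filter (fun z : ℕ × ℕ => Trace r p z.1 z.2)).card : ℝ) / (p : ℝ) ^ 2

lemma piE_eq (χ : ℕ → ℕ) (j : ℕ) (a n r : ℤ) (x : ℕ) : piE χ j a n r x = cntR (T9h55.LT.Tc χ r j) a n x := by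
  classical
  unfold piE cntR
  congr 1
  ext p
  simp only [mem_filter, mem_range, mem_pri]
  constructor
  · rintro ⟨h1, h2, h3⟩
    exact ⟨⟨by omega, h2.1.1⟩, h2, h3⟩
  · rintro ⟨h1, h2, h3⟩
    exact ⟨by omega, h2, h3⟩

lemma model_eq (χ : ℕ → ℕ) (j : ℕ) (r : ℤ) (x : ℕ) : model χ j r x = T9h55.LT.md χ r j x := by
  classical
  unfold model T9h55.LT.md
  have e : (range (x + 1)).filter (fun p => p.Prime ∧ χ p = j) = (pri x).filter (fun p => χ p = j) := by
    ext p
    simp only [mem_filter, mem_range, mem_pri]
    constructor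
    · rintro ⟨h1, h2, h3⟩
      exact ⟨⟨by omega, h2⟩, h3⟩
    · rintro ⟨⟨h1, h2⟩, h3⟩
      exact ⟨by omega, h2, h3⟩
  rw [e, sum_filter]
  refine sum_congr rfl fun p _ => ?_
  rw [T9h55.LT.dens2_tc]
  split_ifs
  · unfold dens2 T9h55.LT.Tr Trace
    congr!
  · rfl

/-- Let `0 < δ ≤ 1` and `A ≥ 0`. There are `W` and `C` such that the following holds for ALL sequences `lam_n`, `μ_n` of real numbers
and all sequences of `n ^ A` data, which consist of ARBITRARY integers `c_{n, i}`, `d_{n, i}` and ARBITRARY functions `χ_{n, i}` of the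
primes with values in `ℕ` (partitions of the set of the primes into classes).

For almost all pairs `(α, β)` of positive real numbers and all large `n`, ALL the curves
`E : y² = x³ + (⌊α lam_n⌋ + c) x + ⌊β μ_n⌋ + d` with `c = c_{n, i}`, `d = d_{n, i}`, `χ = χ_{n, i}`, `i < n ^ A` (for instance all
those with `|c|, |d| ≤ n ^ k`) have the following property for ALL `x ≥ n ^ C` with `x ^ W ≤ lam_n` and `x ^ W ≤ μ_n`, ALL integers
`|r| ≤ x ^ (δ / 10)` and ALL `j ≤ x ^ (δ / 10)`: the number of the primes `p ≤ x` with `χ p = j` and `a_p(E) = r` is `M(x)` up to an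
error of at most `3 x ^ δ (max 1 M(4 x)) ^ (1 / 2)`, where `M(x)` is the sum over the primes `p ≤ x` with `χ p = j` of the proportion
of the pairs of residues modulo `p` for which the curve has the trace `r`. -/
theorem result : ∀ δ : ℝ, 0 < δ → δ ≤ 1 → ∀ A : ℕ, ∃ W C : ℕ, ∀ (lam μ : ℕ → ℝ) (c d : ℕ → ℕ → ℤ) (χ : ℕ → ℕ → ℕ → ℕ),
    ∀ᵐ z : ℝ × ℝ, 0 < z.1 → 0 < z.2 → ∀ᶠ n : ℕ in atTop, ∀ i : ℕ, i < n ^ A →
    ∀ x : ℕ, n ^ C ≤ x → (x : ℝ) ^ W ≤ lam n → (x : ℝ) ^ W ≤ μ n → ∀ (r : ℤ) (j : ℕ), |(r : ℝ)| ≤ (x : ℝ) ^ (δ / 10) →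
    (j : ℝ) ≤ (x : ℝ) ^ (δ / 10) →
    |(piE (χ n i) j ((⌊z.1 * lam n⌋₊ : ℕ) + c n i) ((⌊z.2 * μ n⌋₊ : ℕ) + d n i) r x : ℝ) - model (χ n i) j r x| ≤
      3 * √(max 1 (model (χ n i) j r (4 * x))) * (x : ℝ) ^ δ := by
  intro δ hδ hδ1 A
  obtain ⟨W, C, _, _, H⟩ := T9h55.LT.two_main δ hδ hδ1 A
  refine ⟨W, C, fun lam μ c d χ => ?_⟩
  filter_upwards [H lam μ c d χ] with z hz h1 h2
  filter_upwards [hz h1 h2] with n hn i hi x hx hxl hxμ r j hr hj
  rw [piE_eq, model_eq, model_eq]
  exact hn i hi x hx hxl hxμ r j hr hj

end Pool.Agent.Results.MP_631487_nt.TwoRandomCoefficients
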